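import Pool.Agent.Helper53.PF.St

/-!
# Project PF, module CHN: chain rule for two-variable polynomials
-/

set_option autoImplicit false

namespace PF.Helper16

open Polynomial

theorem coeff_dV {k : Type} [Field k] (P : k[X][X]) (i : ℕ) :
    (dV P).coeff i = derivative (P.coeff i) := by
  unfold dV
  rw [Polynomial.sum_def, finsetSum_coeff]
  rw [Finset.sum_eq_single i]
  · rw [coeff_monomial, if_pos rfl]
  · intro j _ hj
    rw [coeff_monomial, if_neg hj]
  · intro hi
    rw [notMem_support_iff.1 hi, map_zero, map_zero, coeff_zero]

theorem dV_add {k : Type} [Field k] (P Q : k[X][X]) : dV (P + Q) = dV P + dV Q := by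
  apply Polynomial.ext
  intro i
  rw [coeff_dV, coeff_add, coeff_add, coeff_dV, coeff_dV, map_add]

theorem dV_monomial {k : Type} [Field k] (j : ℕ) (a : k[X]) :
    dV (monomial j a) = monomial j (derivative a) := by
  apply Polynomial.ext
  intro i
  rw [coeff_dV, coeff_monomial, coeff_monomial]
  split_ifs
  · rfl
  · rw [map_zero]

theorem ev_monomial {k : Type} [Field k] (v y : k[X]) (j : ℕ) (a : k[X]) :
    ev v y (monomial j a) = a.comp v * y ^ j := by
  unfold ev
  rw [coe_eval₂RingHom, eval₂_monomial]
  rfl

theorem holds_CHN : PF.StCHN := by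
  intro k _
  refine ⟨coeff_dV, ?_, ?_⟩
  · intro P
    rw [natDegree_le_iff_coeff_eq_zero]
    intro N hN
    rw [coeff_dV, coeff_eq_zero_of_natDegree_lt hN, map_zero]
  · intro v y P
    induction P using Polynomial.induction_on' with
    | add p q hp hq =>
      rw [map_add, map_add, map_add, dV_add, map_add, map_add, hp, hq]
      ring
    | monomial j a =>
      rw [dV_monomial, derivative_monomial, ev_monomial, ev_monomial, ev_monomial,
        derivative_mul, derivative_comp, derivative_pow, mul_comp, natCast_comp, map_natCast]
      ring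

end PF.Helper16
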