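import Pool.Agent.Helper53.PF.St

/-!
# Project PF, module PAR: `D(s) w = a(s) + b(s) z + c(s) z²`
-/

set_option autoImplicit false

namespace PF.Helper16

open Polynomial

theorem holds_PAR : PF.StPAR := by
  intro hREP hIND k _ s z w hs hz
  obtain ⟨A, B, C, ez, _⟩ := hREP k s z hs
  obtain ⟨A', B', C', ez2, _⟩ := hREP k s (z ^ 2) hs
  obtain ⟨a, b, c, ew, _⟩ := hREP k s w hs
  have h3 : ¬ 3 ∣ z.natDegree := by
    rw [hz]
    decide
  refine ⟨B * C' - C * B', (B * C' - C * B') * a - (b * C' - c * B') * A - (B * c - C * b) * A',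
    b * C' - c * B', B * c - C * b, ?_, ?_⟩
  · intro hD
    have hDs : B.comp s * C'.comp s - C.comp s * B'.comp s = 0 := by
      rw [← mul_comp, ← mul_comp, ← sub_comp, hD, zero_comp]
    have h1 := hIND k s z (-(C' * A - C * A')) C' (-C) hs h3 (by
      simp only [neg_comp, sub_comp, mul_comp]
      rw [ez2]
      nth_rewrite 1 [ez]
      linear_combination X * hDs)
    have h2 := hIND k s z (-(B' * A - B * A')) B' (-B) hs h3 (by
      simp only [neg_comp, sub_comp, mul_comp]
      rw [ez2]
      nth_rewrite 1 [ez]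
      linear_combination -X ^ 2 * hDs)
    have hC : C = 0 := neg_eq_zero.1 h1.2.2
    have hB : B = 0 := neg_eq_zero.1 h2.2.2
    rw [hB, hC, zero_comp, zero_mul, zero_mul, add_zero, add_zero] at ez
    apply h3
    rw [ez, natDegree_comp, hs]
    exact Dvd.intro_left _ rfl
  · simp only [sub_comp, mul_comp]
    rw [ez2, ew]
    nth_rewrite 1 [ez]
    ring

end PF.Helper16
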